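import Mathlib

set_option autoImplicit false

/-!
# Higher-dimensional joints in matroids

For every `n ≥ 4` the maximal number `J n L` of `n`-dimensional joints formed by `L` lines of a
finite simple matroid is at most `L ^ (5/3) + L`.  In particular it is not near-quadratic.

Idea.  The closure of the union of two lines `a`, `b` has rank at most `4`.  Any line meeting `a`
and `b` in two distinct points lies in it, so all joints on such lines lie in it.  A joint in a flat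
of rank at most `4` must have one of its lines meeting the flat only in that joint, and this gives
an injection from the joints found in this way to the lines.  Double counting finishes the proof.
-/

namespace Pool.Agent.Results.MP_d9ed39_co.HigherJoints

open Set

/-- A matroid is simple if it has no loops and no parallel pairs: any two (possibly equal)
elements of the ground set form an independent set. -/
def IsSimple {α : Type*} (M : Matroid α) : Prop :=
  ∀ x ∈ M.E, ∀ y ∈ M.E, M.Indep {x, y}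

/-- A line of a matroid is a flat of rank two. -/
def IsLine {α : Type*} (M : Matroid α) (l : Set α) : Prop :=
  M.IsFlat l ∧ M.eRk l = 2

/-- `x` is an `n`-dimensional joint of the set of lines `𝔏`: there are `n` lines of `𝔏` through
`x` whose union has rank at least `n + 1`. -/
def IsJoint {α : Type*} (M : Matroid α) (𝔏 : Set (Set α)) (n : ℕ) (x : α) : Prop :=
  x ∈ M.E ∧ ∃ l : Fin n → Set α, (∀ i, l i ∈ 𝔏) ∧ (∀ i, x ∈ l i) ∧
    ((n + 1 : ℕ) : ℕ∞) ≤ M.eRk (⋃ i, l i)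

/-- The possible numbers of `n`-dimensional joints of a set of exactly `L` lines of a finite
simple matroid. -/
def jointCounts (n L : ℕ) : Set ℕ :=
  {k | ∃ (α : Type) (M : Matroid α) (𝔏 : Set (Set α)), M.Finite ∧ IsSimple M ∧
    (∀ l ∈ 𝔏, IsLine M l) ∧ 𝔏.Finite ∧ 𝔏.ncard = L ∧ {x | IsJoint M 𝔏 n x}.ncard = k}

/-- `J n L` is the maximum number of `n`-dimensional joints of a set of exactly `L` lines, over all
finite simple matroids. -/
noncomputable def J (n L : ℕ) : ℕ := sSup (jointCounts n L)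

section core

variable {α : Type*} {M : Matroid α}

lemma line_eq_closure (hs : IsSimple M) {l : Set α} (hl : IsLine M l) {x y : α} (hx : x ∈ l)
    (hy : y ∈ l) (hxy : x ≠ y) : M.closure {x, y} = l := by
  have hE := hl.1.subset_ground
  have hI : M.Indep {x, y} := hs x (hE hx) y (hE hy)
  have hsub : ({x, y} : Set α) ⊆ l := by
    intro z hz
    rcases hz with rfl | hz
    · exact hx
    · rw [mem_singleton_iff] at hz; subst hz; exact hy
  have hfin : ({x, y} : Set α).Finite := by simp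
  have hB : M.IsBasis {x, y} l := by
    refine hI.isBasis_of_eRk_ge hfin hsub ?_
    rw [hl.2, hI.eRk_eq_encard, encard_pair hxy]
  rw [hB.closure_eq_closure, hl.1.closure]

lemma lines_eq (hs : IsSimple M) {l l' : Set α} (hl : IsLine M l) (hl' : IsLine M l') {x y : α}
    (hx : x ∈ l) (hy : y ∈ l) (hx' : x ∈ l') (hy' : y ∈ l') (hxy : x ≠ y) : l = l' := by
  rw [← line_eq_closure hs hl hx hy hxy, line_eq_closure hs hl' hx' hy' hxy]

lemma line_subset (hs : IsSimple M) {l F : Set α} (hl : IsLine M l) (hF : M.IsFlat F) {x y : α}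
    (hx : x ∈ l) (hy : y ∈ l) (hx' : x ∈ F) (hy' : y ∈ F) (hxy : x ≠ y) : l ⊆ F := by
  rw [← line_eq_closure hs hl hx hy hxy, ← hF.closure]
  apply M.closure_subset_closure
  intro z hz
  rcases hz with rfl | hz
  · exact hx'
  · rw [mem_singleton_iff] at hz; subst hz; exact hy'

open Classical in
/-- Main counting inequality. -/
theorem counting (hs : IsSimple M) (𝔏 : Finset (Set α)) (hL : ∀ l ∈ 𝔏, IsLine M l) (n : ℕ)
    (hn : 4 ≤ n) (S : Finset α) (hS : ∀ x ∈ S, IsJoint M (𝔏 : Set (Set α)) n x) :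
    ∃ tl : α → Set α, (∀ x ∈ S, tl x ∈ 𝔏) ∧
      ∑ t ∈ 𝔏, (((S.filter (fun x => tl x = t)).card : ℝ) ^ 3
        - ((S.filter (fun x => tl x = t)).card : ℝ) ^ 2) ≤ (𝔏.card : ℝ) ^ 3 := by
  classical
  have hS' : ∀ x, ∃ l : Fin n → Set α, x ∈ S → (∀ i, l i ∈ 𝔏) ∧ (∀ i, x ∈ l i) ∧
      ((n + 1 : ℕ) : ℕ∞) ≤ M.eRk (⋃ i, l i) := by
    intro x
    by_cases hx : x ∈ S
    · obtain ⟨_, l, h1, h2, h3⟩ := hS x hx
      exact ⟨l, fun _ => ⟨fun i => by simpa using h1 i, h2, h3⟩⟩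
    · exact ⟨fun _ => ∅, fun h => absurd h hx⟩
  choose lx hlx using hS'
  have hne : ∀ x, ∃ i j : Fin n, x ∈ S → lx x i ≠ lx x j := by
    intro x
    by_contra hcon
    push Not at hcon
    have i0 : Fin n := ⟨0, by omega⟩
    obtain ⟨hxS, _⟩ := hcon i0 i0
    obtain ⟨h1, h2, h3⟩ := hlx x hxS
    have hall : (⋃ i, lx x i) ⊆ lx x i0 := by
      apply iUnion_subset
      intro i
      rw [(hcon i i0).2]
    have h4 := h3.trans (M.eRk_mono hall)
    rw [(hL _ (h1 i0)).2] at h4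
    have h5 : n + 1 ≤ 2 := by exact_mod_cast h4
    omega
  choose it ia hta using hne
  set tl : α → Set α := fun x => lx x (it x) with htl
  set al : α → Set α := fun x => lx x (ia x) with hal
  have htlL : ∀ x ∈ S, tl x ∈ 𝔏 := fun x hx => (hlx x hx).1 _
  have halL : ∀ x ∈ S, al x ∈ 𝔏 := fun x hx => (hlx x hx).1 _
  have htlx : ∀ x ∈ S, x ∈ tl x := fun x hx => (hlx x hx).2.1 _
  have halx : ∀ x ∈ S, x ∈ al x := fun x hx => (hlx x hx).2.1 _
  have htal : ∀ x ∈ S, tl x ≠ al x := fun x hx => hta x hx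
  refine ⟨tl, htlL, ?_⟩
  set D : Set α → Finset α := fun t => S.filter (fun x => tl x = t) with hD
  have memD : ∀ t x, x ∈ D t ↔ x ∈ S ∧ tl x = t := by
    intro t x; simp [hD]
  set T : Set α × Set α → Finset (Set α) := fun p =>
    𝔏.filter (fun t => ∃ x ∈ D t, ∃ x' ∈ D t, x ≠ x' ∧ al x = p.1 ∧ al x' = p.2) with hT
  -- the key claim
  have key : ∀ p ∈ 𝔏 ×ˢ 𝔏, ∑ t ∈ T p, (D t).card ≤ 𝔏.card := by
    intro p hp
    rw [Finset.mem_product] at hp
    obtain ⟨ha, hb⟩ := hp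
    set F := M.closure (p.1 ∪ p.2) with hF
    have hFflat : M.IsFlat F := M.isFlat_closure _
    have hFrk : M.eRk F ≤ 4 := by
      rw [hF, M.eRk_closure_eq]
      calc M.eRk (p.1 ∪ p.2) ≤ M.eRk p.1 + M.eRk p.2 := M.eRk_union_le_eRk_add_eRk _ _
        _ = 2 + 2 := by rw [(hL _ ha).2, (hL _ hb).2]
        _ = 4 := by norm_num
    have haF : p.1 ⊆ F := by
      apply M.subset_closure_of_subset' subset_union_left (hL _ ha).1.subset_ground
    have hbF : p.2 ⊆ F := by
      apply M.subset_closure_of_subset' subset_union_right (hL _ hb).1.subset_ground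
    have hTF : ∀ t ∈ T p, t ⊆ F := by
      intro t ht
      simp only [hT, Finset.mem_filter] at ht
      obtain ⟨htL, x, hx, x', hx', hne, hax, hbx⟩ := ht
      rw [memD] at hx hx'
      have h1 : x ∈ t := hx.2 ▸ htlx x hx.1
      have h2 : x' ∈ t := hx'.2 ▸ htlx x' hx'.1
      have h3 : x ∈ F := haF (hax ▸ halx x hx.1)
      have h4 : x' ∈ F := hbF (hbx ▸ halx x' hx'.1)
      exact line_subset hs (hL t htL) hFflat h1 h2 h3 h4 hne
    set JT : Finset α := (T p).biUnion D with hJT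
    have hcard : JT.card = ∑ t ∈ T p, (D t).card := by
      rw [hJT, Finset.card_biUnion]
      intro t _ t' _ htt'
      rw [Function.onFun, Finset.disjoint_left]
      intro x hx hx'
      rw [memD] at hx hx'
      exact htt' (hx.2.symm.trans hx'.2)
    have hJTS : ∀ x ∈ JT, x ∈ S := by
      intro x hx
      rw [hJT, Finset.mem_biUnion] at hx
      obtain ⟨t, _, hx⟩ := hx
      exact ((memD t x).1 hx).1
    have hJTF : ∀ x ∈ JT, x ∈ F := by
      intro x hx
      rw [hJT, Finset.mem_biUnion] at hx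
      obtain ⟨t, ht, hx⟩ := hx
      rw [memD] at hx
      exact hTF t ht (hx.2 ▸ htlx x hx.1)
    have hlonely : ∀ x, ∃ i : Fin n, x ∈ JT → ∀ y ∈ JT, y ∈ lx x i → y = x := by
      intro x
      by_contra hcon
      push Not at hcon
      have i0 : Fin n := ⟨0, by omega⟩
      have hxJ : x ∈ JT := (hcon i0).1
      have hxS := hJTS x hxJ
      have hsub : (⋃ i, lx x i) ⊆ F := by
        apply iUnion_subset
        intro i
        obtain ⟨_, y, hy, hyl, hyx⟩ := hcon i
        exact line_subset hs (hL _ ((hlx x hxS).1 i)) hFflat ((hlx x hxS).2.1 i) hyl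
          (hJTF x hxJ) (hJTF y hy) (Ne.symm hyx)
      have h4 := ((hlx x hxS).2.2.trans (M.eRk_mono hsub)).trans hFrk
      have h5 : n + 1 ≤ 4 := by exact_mod_cast h4
      omega
    choose lo hlo using hlonely
    rw [← hcard]
    apply Finset.card_le_card_of_injOn (fun x => lx x (lo x))
    · intro x hx
      exact (hlx x (hJTS x hx)).1 _
    · intro x hx y hy hxy
      have hxy' : lx x (lo x) = lx y (lo y) := hxy
      have h1 : y ∈ lx x (lo x) := by
        rw [hxy']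
        exact (hlx y (hJTS y hy)).2.1 _
      exact (hlo x hx y hy h1).symm
  -- the number of pairs
  have hpairs : ∀ t ∈ 𝔏, (D t).card * (D t).card - (D t).card ≤
      ((𝔏 ×ˢ 𝔏).filter (fun p => t ∈ T p)).card := by
    intro t ht
    rw [← Finset.offDiag_card]
    apply Finset.card_le_card_of_injOn (fun q => (al q.1, al q.2))
    · intro q hq
      rw [Finset.mem_coe, Finset.mem_offDiag] at hq
      obtain ⟨h1, h2, h3⟩ := hq
      have h1' := (memD _ _).1 h1
      have h2' := (memD _ _).1 h2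
      rw [Finset.mem_coe, Finset.mem_filter, Finset.mem_product]
      refine ⟨⟨halL _ h1'.1, halL _ h2'.1⟩, ?_⟩
      simp only [hT, Finset.mem_filter]
      exact ⟨ht, q.1, h1, q.2, h2, h3, rfl, rfl⟩
    · have inj : ∀ x ∈ D t, ∀ y ∈ D t, al x = al y → x = y := by
        intro x hx y hy hxy
        by_contra hne
        have hx' := (memD _ _).1 hx
        have hy' := (memD _ _).1 hy
        have h1 : x ∈ tl x := htlx x hx'.1
        have h2 : y ∈ tl x := by
          rw [hx'.2, ← hy'.2]; exact htlx y hy'.1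
        have h3 : x ∈ al x := halx x hx'.1
        have h4 : y ∈ al x := by rw [hxy]; exact halx y hy'.1
        exact htal x hx'.1 (lines_eq hs (hL _ (htlL x hx'.1)) (hL _ (halL x hx'.1)) h1 h2 h3 h4 hne)
      intro q hq q' hq' heq
      rw [Finset.mem_coe, Finset.mem_offDiag] at hq hq'
      have heq' : (al q.1, al q.2) = (al q'.1, al q'.2) := heq
      rw [Prod.mk.injEq] at heq'
      exact Prod.ext (inj _ hq.1 _ hq'.1 heq'.1) (inj _ hq.2.1 _ hq'.2.1 heq'.2)
  -- double counting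
  have hdc : ∑ t ∈ 𝔏, (D t).card * ((𝔏 ×ˢ 𝔏).filter (fun p => t ∈ T p)).card
      = ∑ p ∈ 𝔏 ×ˢ 𝔏, ∑ t ∈ T p, (D t).card := by
    have h1 : ∀ p ∈ 𝔏 ×ˢ 𝔏, ∑ t ∈ T p, (D t).card
        = ∑ t ∈ 𝔏, if t ∈ T p then (D t).card else 0 := by
      intro p _
      rw [← Finset.sum_filter]
      apply Finset.sum_congr _ (fun _ _ => rfl)
      ext t
      simp only [Finset.mem_filter, hT]
      exact ⟨fun h => ⟨h.1, h⟩, fun h => h.2⟩
    rw [Finset.sum_congr rfl h1, Finset.sum_comm]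
    apply Finset.sum_congr rfl
    intro t _
    rw [← Finset.sum_filter, Finset.sum_const, smul_eq_mul, mul_comm]
  have hnat : ∑ t ∈ 𝔏, (D t).card * ((D t).card * (D t).card - (D t).card) ≤ 𝔏.card ^ 3 := by
    calc ∑ t ∈ 𝔏, (D t).card * ((D t).card * (D t).card - (D t).card)
        ≤ ∑ t ∈ 𝔏, (D t).card * ((𝔏 ×ˢ 𝔏).filter (fun p => t ∈ T p)).card :=
          Finset.sum_le_sum (fun t ht => Nat.mul_le_mul_left _ (hpairs t ht))
      _ = ∑ p ∈ 𝔏 ×ˢ 𝔏, ∑ t ∈ T p, (D t).card := hdc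
      _ ≤ ∑ _p ∈ 𝔏 ×ˢ 𝔏, 𝔏.card := Finset.sum_le_sum key
      _ = 𝔏.card ^ 3 := by
          rw [Finset.sum_const, smul_eq_mul, Finset.card_product]; ring
  have hcast : (∑ t ∈ 𝔏, (((D t).card : ℝ) ^ 3 - ((D t).card : ℝ) ^ 2))
      = ((∑ t ∈ 𝔏, (D t).card * ((D t).card * (D t).card - (D t).card) : ℕ) : ℝ) := by
    push_cast
    apply Finset.sum_congr rfl
    intro t _
    have hle : (D t).card ≤ (D t).card * (D t).card := Nat.le_mul_self _
    rw [Nat.cast_sub hle]
    push_cast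
    ring
  calc (∑ t ∈ 𝔏, (((D t).card : ℝ) ^ 3 - ((D t).card : ℝ) ^ 2))
      = ((∑ t ∈ 𝔏, (D t).card * ((D t).card * (D t).card - (D t).card) : ℕ) : ℝ) := hcast
    _ ≤ ((𝔏.card ^ 3 : ℕ) : ℝ) := by exact_mod_cast hnat
    _ = (𝔏.card : ℝ) ^ 3 := by push_cast; ring

/-- Tangent line inequality. -/
lemma tangent (s : ℝ) (hs : 0 ≤ s) (d : ℕ) :
    ((s + 1) ^ 3 - (s + 1) ^ 2) + (3 * (s + 1) ^ 2 - 2 * (s + 1)) * ((d : ℝ) - (s + 1))
      ≤ (d : ℝ) ^ 3 - (d : ℝ) ^ 2 := by
  rcases Nat.eq_zero_or_pos d with rfl | hd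
  · push_cast
    nlinarith [sq_nonneg (s + 1), mul_nonneg hs (sq_nonneg (s + 1))]
  · have hd' : (1 : ℝ) ≤ d := by exact_mod_cast hd
    have h : (d : ℝ) ^ 3 - (d : ℝ) ^ 2 - (((s + 1) ^ 3 - (s + 1) ^ 2)
        + (3 * (s + 1) ^ 2 - 2 * (s + 1)) * ((d : ℝ) - (s + 1)))
        = ((d : ℝ) - (s + 1)) ^ 2 * ((d : ℝ) + 2 * (s + 1) - 1) := by ring
    have h2 : 0 ≤ ((d : ℝ) - (s + 1)) ^ 2 * ((d : ℝ) + 2 * (s + 1) - 1) := by
      apply mul_nonneg (sq_nonneg _)
      linarith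
    linarith

theorem bound (hs : IsSimple M) (𝔏 : Finset (Set α)) (hL : ∀ l ∈ 𝔏, IsLine M l) (n : ℕ)
    (hn : 4 ≤ n) (S : Finset α) (hS : ∀ x ∈ S, IsJoint M (𝔏 : Set (Set α)) n x) :
    (S.card : ℝ) ≤ (𝔏.card : ℝ) ^ ((5 : ℝ) / 3) + 𝔏.card := by
  classical
  obtain ⟨tl, htl, hsum⟩ := counting hs 𝔏 hL n hn S hS
  set L : ℝ := (𝔏.card : ℝ) with hLdef
  have hL0 : 0 ≤ L := by positivity
  set s : ℝ := L ^ ((2 : ℝ) / 3) with hsdef
  have hs0 : 0 ≤ s := by positivity
  have hs3 : s ^ 3 = L ^ 2 := by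
    rw [hsdef, ← Real.rpow_natCast, ← Real.rpow_mul hL0, ← Real.rpow_natCast]
    norm_num
  have hcardS : (S.card : ℝ) = ∑ t ∈ 𝔏, ((S.filter (fun x => tl x = t)).card : ℝ) := by
    rw [Finset.card_eq_sum_card_fiberwise (f := tl) (t := 𝔏) (fun x hx => htl x hx)]
    push_cast
    rfl
  have hsum2 : ∑ t ∈ 𝔏, (((s + 1) ^ 3 - (s + 1) ^ 2) + (3 * (s + 1) ^ 2 - 2 * (s + 1)) *
      (((S.filter (fun x => tl x = t)).card : ℝ) - (s + 1))) ≤ L ^ 3 :=
    (Finset.sum_le_sum (fun t _ => tangent s hs0 _)).trans hsum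
  have hsum3 : ∑ t ∈ 𝔏, (((s + 1) ^ 3 - (s + 1) ^ 2) + (3 * (s + 1) ^ 2 - 2 * (s + 1)) *
      (((S.filter (fun x => tl x = t)).card : ℝ) - (s + 1)))
      = L * ((s + 1) ^ 3 - (s + 1) ^ 2) + (3 * (s + 1) ^ 2 - 2 * (s + 1)) *
        ((S.card : ℝ) - L * (s + 1)) := by
    rw [Finset.sum_add_distrib, ← Finset.mul_sum, hcardS, Finset.sum_const, nsmul_eq_mul,
      Finset.sum_sub_distrib, Finset.sum_const, nsmul_eq_mul]
  rw [hsum3] at hsum2
  have h1 : L ^ 3 ≤ L * ((s + 1) ^ 3 - (s + 1) ^ 2) := by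
    have h2 : L ^ 2 ≤ (s + 1) ^ 3 - (s + 1) ^ 2 := by
      rw [← hs3]; nlinarith [mul_nonneg hs0 hs0]
    nlinarith
  have h3 : (3 * (s + 1) ^ 2 - 2 * (s + 1)) * ((S.card : ℝ) - L * (s + 1)) ≤ 0 := by linarith
  have h4 : 0 < 3 * (s + 1) ^ 2 - 2 * (s + 1) := by nlinarith
  have h5 : (S.card : ℝ) - L * (s + 1) ≤ 0 := by
    by_contra hcon
    push Not at hcon
    have := mul_pos h4 hcon
    linarith
  have h6 : L * s = L ^ ((5 : ℝ) / 3) := by
    rcases hL0.eq_or_lt with h0 | hpos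
    · rw [← h0]; simp
    · rw [hsdef]
      nth_rewrite 1 [← Real.rpow_one L]
      rw [← Real.rpow_add hpos]
      norm_num
  rw [← h6]
  linarith

end core

/-- **Main result.** For every `n ≥ 4`: every set of exactly `L` lines of a finite simple matroid
has at most `L ^ (5/3) + L` joints of dimension `n`; hence there is `ε > 0` with
`J n L < L ^ (2 - ε)` for all sufficiently large `L`. -/
theorem result : ∀ n : ℕ, 4 ≤ n →
    (∀ L : ℕ, ∀ k ∈ jointCounts n L, (k : ℝ) ≤ (L : ℝ) ^ ((5 : ℝ) / 3) + L) ∧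
    ∃ ε : ℝ, 0 < ε ∧ ∃ L₀ : ℕ, ∀ L ≥ L₀, (J n L : ℝ) < (L : ℝ) ^ (2 - ε) := by
  intro n hn
  have hmain : ∀ L : ℕ, ∀ k ∈ jointCounts n L, (k : ℝ) ≤ (L : ℝ) ^ ((5 : ℝ) / 3) + L := by
    rintro L k ⟨α, M, 𝔏, hfin, hs, hline, hLfin, hLcard, hk⟩
    have hSfin : {x | IsJoint M 𝔏 n x}.Finite :=
      hfin.ground_finite.subset (fun x hx => hx.1)
    have hb := bound hs hLfin.toFinset (fun l hl => hline l (by simpa using hl)) n hn
      hSfin.toFinset (fun x hx => by simpa using hx)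
    rw [← Set.ncard_eq_toFinset_card _ hSfin, ← Set.ncard_eq_toFinset_card _ hLfin, hk,
      hLcard] at hb
    exact hb
  refine ⟨hmain, 1 / 6, by norm_num, 65, ?_⟩
  intro L hL
  have hLpos : (0 : ℝ) < L := by
    have : 0 < L := by omega
    exact_mod_cast this
  have hJ : (J n L : ℝ) ≤ (L : ℝ) ^ ((5 : ℝ) / 3) + L := by
    rcases (jointCounts n L).eq_empty_or_nonempty with he | hne
    · rw [J, he]
      simp only [csSup_empty, bot_eq_zero', Nat.cast_zero]
      positivity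
    · have hbdd : BddAbove (jointCounts n L) := by
        refine ⟨⌊(L : ℝ) ^ ((5 : ℝ) / 3) + L⌋₊, ?_⟩
        intro k hk
        exact Nat.le_floor (hmain L k hk)
      exact hmain L _ (Nat.sSup_mem hne hbdd)
  refine lt_of_le_of_lt hJ ?_
  have h64 : (64 : ℝ) < L := by
    have : 64 < L := by omega
    exact_mod_cast this
  have h2 : (2 : ℝ) < (L : ℝ) ^ ((1 : ℝ) / 6) := by
    have h3 : ((64 : ℝ)) ^ ((1 : ℝ) / 6) = 2 := by
      have : (64 : ℝ) = 2 ^ (6 : ℝ) := by norm_num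
      rw [this, ← Real.rpow_mul (by norm_num)]
      norm_num
    rw [← h3]
    exact Real.rpow_lt_rpow (by norm_num) h64 (by norm_num)
  have h5 : (L : ℝ) ≤ (L : ℝ) ^ ((5 : ℝ) / 3) := by
    nth_rewrite 1 [← Real.rpow_one (L : ℝ)]
    apply Real.rpow_le_rpow_of_exponent_le (by linarith) (by norm_num)
  have h6 : (L : ℝ) ^ (2 - (1 : ℝ) / 6) = (L : ℝ) ^ ((5 : ℝ) / 3) * (L : ℝ) ^ ((1 : ℝ) / 6) := by
    rw [← Real.rpow_add hLpos]
    norm_num
  rw [h6]
  have h7 : 0 < (L : ℝ) ^ ((5 : ℝ) / 3) := by positivity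
  nlinarith

end Pool.Agent.Results.MP_d9ed39_co.HigherJoints
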